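import Pool.Agent.U541.FV.Views

/-!
# The complexity of flats of maximal dimension in CAT(0) spaces with geometric group actions

Let `G` act geometrically on the proper CAT(0) space `X`, let `o ∈ X` be a point such that every point
of `X` is at distance at most `D` from the orbit of `o`, and let `k` be the maximal dimension of flats
in `X`. Let `f` be a flat of dimension `k`. A frame at `f` is an element `x` of `G` such that `x o` is
at distance at most `D` from `f`. The view from the frame `x` is the flat `x⁻¹ f`: the flat `f` as it is
seen from `x o`. Two views agree up to the radius `r` if they are within `R` of each other in the ball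
of radius `r` about `o`, where `R` is a constant which is large enough.

Theorem. If `G` has a subgroup isomorphic to `ℤ ^ k` which acts on `f`, up to bounded distance, as a
lattice of translations, then the number of different views of `f` is bounded, independently of the
radius. Otherwise there are, for every `m`, at least `m + 1` frames at `f` whose views pairwise disagree
already up to the radius `s m`. The constant `s` does not depend on `f`.

So the number of coarsely different views of `f` up to the radius `r` is bounded or at least `r / s` for
every `r`. If `k ≥ 2` and `G` has no subgroup isomorphic to `ℤ²` then it is at least `r / s` for all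
flats of dimension `k`; in other words, a single flat of dimension `k ≥ 2` which for one `m` has at most
`m` coarsely different views up to the radius `s m` forces a `ℤ²` in `G`, and even a periodic flat.

Proof. This is a coarse form of the theorem of Morse and Hedlund on the complexity of aperiodic
sequences. Agreement within `R` is only agreement within `2 R` after two steps. But flats of dimension
`k` which are within `2 R` of each other on a large ball are within a fixed distance at its centre:
otherwise a limit argument gives parallel flats of dimension `k` whose distance is larger than the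
thickness of the parallel sets, which is bounded because there are no flats of dimension `k + 1`. So the
errors can be corrected at the price of a constant loss of radius. If the number of views does not grow
from the radius `r` to the radius `r + s` then an agreement of the views from `a` and `b` propagates
along `f` and `b a⁻¹` moves `f` by a finite Hausdorff distance. These elements act cocompactly on `f`,
and by a Bieberbach argument (library) they contain the `ℤ ^ k`.
-/

set_option autoImplicit false

namespace Pool.Agent.Results.MP_140312_al.FlatViews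

open Set

/-- Euclidean space of dimension `k`. -/
abbrev E (k : ℕ) : Type := EuclideanSpace ℝ (Fin k)

/-- The inequality of Bruhat and Tits: a complete metric space is CAT(0) if and only if any two
points `p`, `q` have a midpoint `m` such that
`d(x, m)² ≤ (d(x, p)² + d(x, q)²) / 2 - d(p, q)² / 4` for all `x`. -/
def BruhatTits (X : Type*) [MetricSpace X] : Prop := ∀ p q : X, ∃ m : X, ∀ x : X,
  dist x m ^ 2 ≤ (dist x p ^ 2 + dist x q ^ 2) / 2 - dist p q ^ 2 / 4

/-- The element `x` of `G` is a frame at the flat `f`: the point `x o` is at distance at most `D` from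
`f`. -/
def Frame {X G : Type*} [MetricSpace X] [Group G] [MulAction G X] {k : ℕ} (D : ℕ) (o : X)
    (f : E k → X) (x : G) : Prop := ∃ z, dist (x • o) (f z) ≤ D

/-- The view of the flat `f` from `x ∈ G`: the flat `x⁻¹ f`. -/
def view {X G : Type*} [MetricSpace X] [Group G] [MulAction G X] {k : ℕ} (f : E k → X) (x : G) :
    Set X := range fun z => x⁻¹ • f z

/-- In the ball of radius `r` about `o` the sets `A` and `B` are within `R` of each other. -/
def Agree {X : Type*} [MetricSpace X] (o : X) (R r : ℕ) (A B : Set X) : Prop :=
  (∀ p ∈ A, dist o p ≤ r → ∃ q ∈ B, dist p q ≤ R) ∧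
    ∀ p ∈ B, dist o p ≤ r → ∃ q ∈ A, dist p q ≤ R

/-- The flat `f` is coarsely periodic: `G` has a subgroup isomorphic to `ℤ ^ k` which acts on `f`, up
to bounded distance, as a lattice of translations. -/
def Periodic (G : Type*) {X : Type*} [MetricSpace X] [Group G] [MulAction G X] {k : ℕ}
    (f : E k → X) : Prop :=
  ∃ (φ : Multiplicative (Fin k → ℤ) →* G) (b : Fin k → E k) (r : ℝ),
    Function.Injective φ ∧ LinearIndependent ℝ b ∧
    ∀ (n : Fin k → ℤ) (z : E k),
      dist (φ (Multiplicative.ofAdd n) • f z) (f (z + ∑ i, n i • b i)) ≤ r

theorem agree_iff {X G : Type*} [MetricSpace X] [Group G] [MulAction G X] {k : ℕ} (o : X)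
    (R r : ℕ) (f : E k → X) (x y : G) :
    Agree o R r (view f x) (view f y) ↔ Pool.Agent.U541.FV.Sim R r o f x y := by
  unfold Agree view Pool.Agent.U541.FV.Sim Pool.Agent.U541.FV.Half
  simp only [forall_mem_range, exists_range_iff]

/-- a coarsely periodic flat of dimension at least two gives a `ℤ²` -/
theorem plane_of_periodic {G X : Type*} [MetricSpace X] [Group G] [MulAction G X] {k : ℕ}
    (hk : 2 ≤ k) {f : E k → X} (h : Periodic G f) :
    ∃ ψ : Multiplicative (ℤ × ℤ) →* G, Function.Injective ψ := by
  obtain ⟨φ, -, -, hφ, -⟩ := h
  let i0 : Fin k := ⟨0, by omega⟩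
  let i1 : Fin k := ⟨1, by omega⟩
  have h01 : i0 ≠ i1 := by
    intro h
    have := congrArg Fin.val h
    simp [i0, i1] at this
  let j : ℤ × ℤ →+ (Fin k → ℤ) :=
    { toFun := fun p => Pi.single i0 p.1 + Pi.single i1 p.2
      map_zero' := by simp
      map_add' := fun p q => by
        simp only [Prod.fst_add, Prod.snd_add, Pi.single_add]
        abel }
  refine ⟨φ.comp (AddMonoidHom.toMultiplicative j), hφ.comp ?_⟩
  intro p q hpq
  have h1 : j (Multiplicative.toAdd p) = j (Multiplicative.toAdd q) := hpq
  have h2 := congrFun h1 i0
  have h3 := congrFun h1 i1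
  simp only [j, AddMonoidHom.coe_mk, ZeroHom.coe_mk, Pi.add_apply, Pi.single_eq_same,
    Pi.single_eq_of_ne h01, Pi.single_eq_of_ne h01.symm, add_zero, zero_add] at h2 h3
  exact Multiplicative.toAdd.injective (Prod.ext h2 h3)

/-- Let `G` act geometrically (by isometries, properly discontinuously, every point within `D` of the
orbit of `o`) on a proper CAT(0) space `X` without flats of dimension `k + 1`. For large `R` there is
`s` such that for every flat `f` of dimension `k`: (1) if `f` is coarsely periodic then the number of
frames at `f` whose views pairwise disagree is bounded, independently of the radius; (2) if not, then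
for every `m` there are `m + 1` frames at `f` whose views pairwise disagree up to the radius `s m`;
(3) in particular this is so for all `f` if `k ≥ 2` and `G` has no subgroup isomorphic to `ℤ²`. -/
theorem result {X : Type*} [MetricSpace X] [ProperSpace X] (hX : BruhatTits X)
    {G : Type*} [Group G] [MulAction G X] [IsIsometricSMul G X] [ProperlyDiscontinuousSMul G X]
    (o : X) (D : ℕ) (hD : ∀ p : X, ∃ g : G, dist (g • o) p ≤ D)
    (k : ℕ) (hk : ∀ f : E (k + 1) → X, ¬ Isometry f) :
    ∃ R0 : ℕ, ∀ R, R0 ≤ R → ∃ s : ℕ, ∀ f : E k → X, Isometry f →
      (Periodic G f → ∃ N : ℕ, ∀ (r : ℕ) (F : Finset G), (∀ x ∈ F, Frame D o f x) →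
        (∀ x ∈ F, ∀ y ∈ F, Agree o R r (view f x) (view f y) → x = y) → F.card ≤ N) ∧
      (¬ Periodic G f → ∀ m : ℕ, ∃ F : Finset G, F.card = m + 1 ∧ (∀ x ∈ F, Frame D o f x) ∧
        ∀ x ∈ F, ∀ y ∈ F, Agree o R (s * m) (view f x) (view f y) → x = y) ∧
      (2 ≤ k → (¬ ∃ ψ : Multiplicative (ℤ × ℤ) →* G, Function.Injective ψ) →
        ∀ m : ℕ, ∃ F : Finset G, F.card = m + 1 ∧ (∀ x ∈ F, Frame D o f x) ∧
          ∀ x ∈ F, ∀ y ∈ F, Agree o R (s * m) (view f x) (view f y) → x = y) := by
  have hG : Pool.Agent.Y34.HB.Geo X G := by
    refine ⟨inferInstance, inferInstance, inferInstance,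
      ⟨Metric.closedBall o D, isCompact_closedBall o D, fun p => ?_⟩, hX⟩
    obtain ⟨g, hg⟩ := hD p
    refine ⟨g⁻¹, ?_⟩
    rw [Metric.mem_closedBall, dist_comm, Pool.Agent.U541.FV.dist_inv_smul']
    exact hg
  obtain ⟨R0, hR0⟩ := Pool.Agent.U541.FV.views hG k hk o D hD
  refine ⟨R0, fun R hR => ?_⟩
  obtain ⟨s, hs⟩ := hR0 R hR
  refine ⟨s, fun f hf => ?_⟩
  obtain ⟨h1, h2⟩ := hs f hf
  simp only [agree_iff]
  exact ⟨h1, h2, fun hk2 hno => h2 fun hp => hno (plane_of_periodic hk2 hp)⟩

end Pool.Agent.Results.MP_140312_al.FlatViews
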