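import Pool.Agent.U541.FM.Conv
import Pool.Agent.U541.RF.Geom

/-!
# Invariant random flats: they exist, and atoms force `ℤ²`

Let `G` act geometrically on a proper CAT(0) space `X`. An invariant field of sets is a measure space
`(Ω, μ)` with a measure preserving action of `G` and an equivariant map `F` from `Ω` to the subsets
of `X` of locally finite intensity: for every bounded set `B` the measure of all `ω` such that `F ω`
meets `B` is finite. For example, `Ω` is the space of all flats of `X` with a `G`-invariant measure
which is finite on the set of the flats which meet a ball. The field has an atom at the flat `f` if the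
set of the `ω` such that `F ω` is at Hausdorff distance at most `n` from `f` is measurable and has
positive measure, for some `n`.

A random flat of dimension `k` is a measure on the space of all subsets of `G` which is invariant under
translations, gives mass one to the sets which contain a given element, and such that for almost all
`A` the part `A o` of the orbit of a base point `o` is at bounded Hausdorff distance from a flat of
dimension `k`.

Theorem. (1) If `X` has a flat of dimension `k` then there is a random flat of dimension `k`. (2) If an
invariant field has an atom at a flat plane then `G` contains `ℤ²`. (3) If `X` has a flat plane (if `G` is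
not hyperbolic) then `G` contains `ℤ²` or there is a diffuse random flat plane: it gives measure zero to
every class of parallel planes. (4) If `k` is the maximal dimension of flats of `X` then there is an
invariant field with an atom at the flat `f` of dimension `k` if and only if `G` has a subgroup `ℤ ^ k`
which acts on `f`, up to bounded distance, as a lattice of translations.

Proof. (1) Choose elements of `G` which move a base point near to the integral points of the flat. Let
`A n` be the set of those which belong to the box of size `n`. Its cardinality has polynomial growth, so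
there are boxes whose boundaries of large width are relatively small. The measures which give mass
`1 / |A n|` to every translate of `A n` have a limit on the locally compact space of all nonempty
subsets of `G`, by the theorem of Riesz. It is invariant, the sets which contain a given element have
mass one, and almost all sets agree on every finite set with a translate of the union of the `A n`; so
they are nets of limit flats.
(2), (4) Let `C` be the set of all `ω` such that `F ω` is at Hausdorff distance at most `n` from `f`. For
every point `a` of the flat choose `κ a ∈ G` which moves `f a` to a fixed compact set. The sets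
`κ a C` have the same positive measure, and for their elements `ω` the sets `F ω` meet a fixed ball. So
there is a finite maximal family of pairwise disjoint sets `κ b C`, and for every `a` there is a `b` of
the finite family such that `(κ a)⁻¹ (κ b)` moves `f` to Hausdorff distance at most `2 n` from itself. So
the elements of `G` which move `f` to a parallel flat at distance at most `2 n` act coarsely
transitively on `f`; the starting library has closing theorems for this situation. Conversely
take the translates of the orbit of `f` under the subgroup `ℤ ^ k` with the counting measure.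
-/

set_option autoImplicit false

namespace Pool.Agent.Results.MP_140312_al.RandomFlats

open Set MeasureTheory

universe u v

/-- Euclidean space of dimension `k`. -/
abbrev E (k : ℕ) : Type := EuclideanSpace ℝ (Fin k)

/-- The inequality of Bruhat and Tits: a complete metric space is CAT(0) if and only if any two
points `p`, `q` have a midpoint `m` such that
`d(x, m)² ≤ (d(x, p)² + d(x, q)²) / 2 - d(p, q)² / 4` for all `x`. -/
def BruhatTits (X : Type*) [MetricSpace X] : Prop := ∀ p q : X, ∃ m : X, ∀ x : X,
  dist x m ^ 2 ≤ (dist x p ^ 2 + dist x q ^ 2) / 2 - dist p q ^ 2 / 4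

/-- Invariant fields of subsets of `X` of locally finite intensity: a measure preserving action of `G`
on `Ω` and an equivariant map `F` to the subsets of `X` such that the set of all `ω` for which `F ω`
meets a given bounded set has finite (outer) measure. -/
structure IsField (G : Type*) {X : Type*} [MetricSpace X] [Group G] [MulAction G X]
    {Ω : Type*} [MeasurableSpace Ω] [MulAction G Ω] (μ : Measure Ω) (F : Ω → Set X) : Prop where
  preserving : ∀ g : G, MeasurePreserving (fun ω : Ω => g • ω) μ μ
  equivariant : ∀ (g : G) (ω : Ω), F (g • ω) = (fun x => g • x) '' F ω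
  finite : ∀ B : Set X, Bornology.IsBounded B → μ {ω | (F ω ∩ B).Nonempty} < ⊤

/-- The set `A` is at Hausdorff distance at most `n` from the image of `f`. -/
def Within {X : Type*} [MetricSpace X] {k : ℕ} (n : ℝ) (f : E k → X) (A : Set X) : Prop :=
  (∀ x ∈ A, ∃ z, dist x (f z) ≤ n) ∧ ∀ z, ∃ x ∈ A, dist x (f z) ≤ n

/-- Some invariant field of locally finite intensity has an atom at `f`: for some `n` the set of the
`ω` such that `F ω` is at Hausdorff distance at most `n` from `f` is measurable and of positive
measure. -/
def HasAtom (G : Type v) {X : Type u} [MetricSpace X] [Group G] [MulAction G X] {k : ℕ}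
    (f : E k → X) : Prop :=
  ∃ (Ω : Type v) (_ : MeasurableSpace Ω) (_ : MulAction G Ω) (μ : Measure Ω) (F : Ω → Set X) (n : ℝ),
    IsField G μ F ∧ MeasurableSet {ω | Within n f (F ω)} ∧ 0 < μ {ω | Within n f (F ω)}

/-- The part `{a • o | a ∈ A}` of the orbit of `o` which is given by the subset `A` of `G` (subsets are
given by their characteristic functions). -/
def orbit {G X : Type*} [Group G] [MulAction G X] (o : X) (A : G → Bool) : Set X :=
  {x | ∃ a : G, A a = true ∧ a • o = x}

/-- A random flat of dimension `k`: a measure on the space `G → Bool` of all subsets of `G`, with the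
product σ-algebra, which is invariant under left translations, gives mass `1` to the set of all `A`
which contain `x`, for every `x`, and such that for some `r` and almost all `A` the set `orbit o A` is at
Hausdorff distance at most `r` from a flat of dimension `k`. -/
structure IsRandomFlat {G X : Type*} [MetricSpace X] [Group G] [MulAction G X] (o : X) (k : ℕ)
    (μ : Measure (G → Bool)) : Prop where
  invariant : ∀ g : G, μ.map (fun A x => A (g⁻¹ * x)) = μ
  intensity : ∀ x : G, μ {A | A x = true} = 1
  flat : ∃ r : ℝ, ∀ᵐ A ∂μ, ∃ h : E k → X, Isometry h ∧ Within r h (orbit o A)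

/-- Let `G` act geometrically (by isometries, properly discontinuously, cocompactly) on a proper CAT(0)
space `X` and let `o` be a point of `X`. (1) If `X` has a flat of dimension `k` then there is a random flat
of dimension `k`. (2) If some invariant field of locally finite intensity has an atom at a flat plane of
`X` then `G` has a subgroup isomorphic to `ℤ²`. (3) If `X` has a flat plane then `G` has a subgroup
isomorphic to `ℤ²` or there is a random flat plane `μ` which is diffuse: for every flat plane `p` and
every `n`, for almost all `A` the set `orbit o A` is not at Hausdorff distance at most `n` from `p`.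
(4) Let `X` have no flats of dimension `k + 1`. Some invariant field of locally finite intensity has an
atom at the flat `f` of dimension `k` if and only if `G` has a subgroup isomorphic to `ℤ ^ k` which acts
on `f`, up to bounded distance, as a lattice of translations. -/
theorem result {X : Type u} [MetricSpace X] [ProperSpace X] (hX : BruhatTits X)
    {G : Type v} [Group G] [MulAction G X] [IsIsometricSMul G X] [ProperlyDiscontinuousSMul G X]
    (hcc : ∃ K : Set X, IsCompact K ∧ ∀ x : X, ∃ g : G, g • x ∈ K) (o : X) :
    (∀ (k : ℕ) (f : E k → X), Isometry f → ∃ μ : Measure (G → Bool), IsRandomFlat o k μ) ∧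
    (∀ f : E 2 → X, Isometry f → HasAtom G f →
      ∃ φ : Multiplicative (ℤ × ℤ) →* G, Function.Injective φ) ∧
    (∀ f : E 2 → X, Isometry f →
      (∃ φ : Multiplicative (ℤ × ℤ) →* G, Function.Injective φ) ∨
      ∃ μ : Measure (G → Bool), IsRandomFlat o 2 μ ∧
        ∀ p : E 2 → X, Isometry p → ∀ n : ℝ, μ {A | Within n p (orbit o A)} = 0) ∧
    ∀ k : ℕ, (∀ f : E (k + 1) → X, ¬ Isometry f) → ∀ f : E k → X, Isometry f →
      (HasAtom G f ↔
        ∃ (φ : Multiplicative (Fin k → ℤ) →* G) (b : Fin k → E k) (r : ℝ),
          Function.Injective φ ∧ LinearIndependent ℝ b ∧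
          ∀ (n : Fin k → ℤ) (z : E k),
            dist (φ (Multiplicative.ofAdd n) • f z) (f (z + ∑ i, n i • b i)) ≤ r) := by
  have hG : Pool.Agent.Y34.HB.Geo X G := ⟨inferInstance, inferInstance, inferInstance, hcc, hX⟩
  have e : ∀ {k : ℕ} (f : E k → X) (n : ℝ) (A : Set X),
      Within n f A ↔ Pool.Agent.U541.FM.CloseTo n A (range f) := by
    intro k f n A
    constructor
    · rintro ⟨h1, h2⟩
      refine ⟨fun x hx => ?_, ?_⟩
      · obtain ⟨z, hz⟩ := h1 x hx
        exact ⟨f z, ⟨z, rfl⟩, hz⟩
      · rintro _ ⟨z, rfl⟩
        exact h2 z
    · rintro ⟨h1, h2⟩
      refine ⟨fun x hx => ?_, fun z => h2 (f z) ⟨z, rfl⟩⟩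
      obtain ⟨_, ⟨z, rfl⟩, hz⟩ := h1 x hx
      exact ⟨z, hz⟩
  have h1 : ∀ (k : ℕ) (f : E k → X), Isometry f →
      ∃ μ : Measure (G → Bool), IsRandomFlat o k μ := by
    intro k f hf
    obtain ⟨μ, r, hi, h0, hr⟩ := Pool.Agent.U541.RF.direct hcc o hf
    refine ⟨μ, hi, h0, r, ?_⟩
    filter_upwards [hr] with A hA
    obtain ⟨h, hh, hc⟩ := hA
    exact ⟨h, hh, (e h r (orbit o A)).2 hc⟩
  refine ⟨h1, ?_, fun f hf => ?_, fun k hk f hf => ⟨?_, ?_⟩⟩
  · rintro f hf ⟨Ω, _, _, μ, F, n, hF, hm, hpos⟩
    simp only [e] at hm hpos
    exact Pool.Agent.U541.FM.plane_flat hG μ F ⟨hF.1, hF.2, hF.3⟩ hf n hm hpos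
  · by_cases hZ : ∃ φ : Multiplicative (ℤ × ℤ) →* G, Function.Injective φ
    · exact Or.inl hZ
    · obtain ⟨μ, hμ⟩ := h1 2 f hf
      refine Or.inr ⟨μ, hμ, fun p hp n => ?_⟩
      by_contra h
      have : Countable G := Pool.Agent.U541.RF.countable_of o
      simp only [e] at h
      let _ : MulAction G (G → Bool) := Pool.Agent.U541.RF.tact
      exact hZ (Pool.Agent.U541.FM.plane_flat hG μ (orbit o)
        (Pool.Agent.U541.RF.field_of o μ hμ.invariant hμ.intensity) hp n
        (Pool.Agent.U541.RF.meas o 2 p n) (pos_iff_ne_zero.2 h))
  · rintro ⟨Ω, _, _, μ, F, n, hF, hm, hpos⟩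
    simp only [e] at hm hpos
    exact Pool.Agent.U541.FM.max_flat hG k hk μ F ⟨hF.1, hF.2, hF.3⟩ hf n hm hpos
  · rintro ⟨φ, b, r, -, hb, h⟩
    obtain ⟨Ω, ms, act, μ, F, hF, hm, hpos⟩ := Pool.Agent.U541.FM.converse hf φ b hb r h
    refine ⟨Ω, ms, act, μ, F, r, ⟨hF.1, hF.2, hF.3⟩, ?_, ?_⟩
    · simp only [e]
      exact hm
    · simp only [e]
      exact hpos

end Pool.Agent.Results.MP_140312_al.RandomFlats
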