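import Pool.Agent.U293.FX.STRA
import Pool.Agent.U293.FX.VIRA

/-!
# Groups of automorphisms of `ℤ[x, y]` without `ℤ^2` are hyperbolic

The question is whether a group which acts geometrically on a CAT(0) cube complex, or on a proper CAT(0)
space, and does not contain `ℤ^2` is hyperbolic. Such groups are finitely generated. We show that the
answer is yes for all groups which are isomorphic to subgroups of the automorphism group of the ring
`ℤ[x, y]`; no CAT(0) space is needed.

(1) (no hypothesis) Let `G` be a finitely generated torsion-free subgroup of `Aut ℤ[x, y]` without `ℤ^2`.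
Then `G` acts without inversions and with finitely many orbits on a tree such that the stabilizers of
the vertices are finitely generated free groups and those of the edges are trivial or infinite cyclic;
and `G` contains no Baumslag-Solitar group.

(2) (no hypothesis) If `t u^a t⁻¹ = u^b` in `Aut ℤ[x, y]`, where `u` has infinite order and `a, b` are not `0`,
then `b = ± a`.

(3) Assume two published theorems: `CombinationTheorem` (Bestvina, Feighn 1992: a group with an action
as in (1) which contains no Baumslag-Solitar group is hyperbolic) and `FiniteIndexTheorem` (Gromov: a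
group with a hyperbolic subgroup of finite index is hyperbolic). Then every finitely generated subgroup
of `Aut ℤ[x, y]` without `ℤ^2` is hyperbolic.

Outline of the proof. The decomposition is the one of `MP_073b1f_gt.TorsionFreeAutomorphisms` (tree of
the amalgam of Jung's theorem; lattices of integral polynomials; groups over `GL_2(ℤ)` with kernel in
`ℤ ^ 2`, groups over the infinite dihedral group). (2): let `p` be a prime with different exponents in `a`
and `b`, and let `I` be the ideal of the polynomials whose value at the origin is divisible by `p`. Powers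
of `t` and of `u` are in the group `N` of the automorphisms which are trivial modulo `I^2`. The elements of
`N` act trivially on `I^k / I^(k+1)`, and `g^(p^m)` is trivial modulo `I^n` for large `m`. So in the finite
quotients of `N` given by the action on `ℤ[x, y] / I^n` the image of `u` has an order which is a power of
`p`, and the relation implies that it is trivial. As the intersection of the powers of `I` is `0`, this
contradicts the infinite order of `u`. The groups `BS(p, ± p)` contain `ℤ^2`. (3): the intersection of the
groups `N` for `p = 2` and `p = 3` is torsion-free (apply the argument for (2) to `u^l = 1`) and has finite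
index.
-/

set_option autoImplicit false

namespace Pool.Agent.Results.MP_140312_al.TorsionFreeAutomorphisms

open U722.FF (OnTree BS)

/-- the word metric of a set of generators -/
noncomputable def wordDist {G : Type} [Group G] (S : Finset G) (x y : G) : ℤ :=
  ((sInf {m : ℕ | ∃ l : List G, l.length = m ∧ (∀ s ∈ l, s ∈ S ∨ s⁻¹ ∈ S) ∧ l.prod = x⁻¹ * y} : ℕ) : ℤ)

/-- `G` is hyperbolic: for some finite set of generators the word metric satisfies the four point
condition of Gromov -/
def Hyperbolic (G : Type) [Group G] : Prop :=
  ∃ (S : Finset G) (δ : ℤ), Subgroup.closure (S : Set G) = ⊤ ∧ ∀ w x y z : G,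
    min (wordDist S w x + wordDist S w y - wordDist S x y)
        (wordDist S w y + wordDist S w z - wordDist S y z)
      ≤ wordDist S w x + wordDist S w z - wordDist S x z + δ

/-- `G` contains a free abelian group of rank two -/
def ContainsZ2 (G : Type) [Group G] : Prop :=
  ∃ f : Multiplicative (ℤ × ℤ) →* G, Function.Injective f

/-- only the unit element has finite order -/
def TorsionFree (G : Type) [Group G] : Prop := ∀ g : G, ∀ k : ℕ, 0 < k → g ^ k = 1 → g = 1

/-- `G` contains a Baumslag-Solitar group `BS p q = ⟨a, t | t a^p t⁻¹ = a^q⟩`, `p, q ≠ 0` -/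
def ContainsBS (G : Type) [Group G] : Prop :=
  ∃ (p q : ℤ) (f : BS p q →* G), p ≠ 0 ∧ q ≠ 0 ∧ Function.Injective f

/-- a finitely generated subgroup of a free group -/
def FreeFG (H : Type) [Group H] : Prop :=
  Group.FG H ∧ ∃ (X : Type) (f : H →* FreeGroup X), Function.Injective f

/-- trivial or infinite cyclic -/
def Cyclic (H : Type) [Group H] : Prop := Subsingleton H ∨ Nonempty (H ≃* Multiplicative ℤ)

/-- the combination theorem of Bestvina and Feighn for free vertex groups and cyclic edge groups -/
def CombinationTheorem : Prop :=
  ∀ (G : Type) [Group G], OnTree G (fun H _ => FreeFG H) (fun H _ => Cyclic H) →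
    ¬ ContainsBS G → Hyperbolic G

/-- a group with a hyperbolic subgroup of finite index is hyperbolic -/
def FiniteIndexTheorem : Prop :=
  ∀ (G : Type) [Group G] (N : Subgroup G), N.index ≠ 0 → Hyperbolic N → Hyperbolic G

/-- (1) Let `G` be a finitely generated torsion-free group isomorphic to a subgroup of the group of
automorphisms of `ℤ[x, y]` which does not contain `ℤ^2`. Then `G` acts on a tree, without inversions and
with finitely many orbits, with finitely generated free stabilizers of vertices and trivial or infinite
cyclic stabilizers of edges (`OnTree`), and contains no Baumslag-Solitar group. (2) If `t u^a t⁻¹ = u^b`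
for automorphisms `t`, `u` of `ℤ[x, y]`, `u` of infinite order, `a, b ≠ 0`, then `b = ± a`. (3) Assume
`CombinationTheorem` and `FiniteIndexTheorem`. Then every finitely generated group isomorphic to a
subgroup of the group of automorphisms of `ℤ[x, y]` which does not contain `ℤ^2` is hyperbolic. -/
theorem result :
    (∀ (G : Type) [Group G] (ρ : G →* (MvPolynomial (Fin 2) ℤ ≃ₐ[ℤ] MvPolynomial (Fin 2) ℤ)),
      Function.Injective ρ → TorsionFree G → Group.FG G → ¬ ContainsZ2 G →
      OnTree G (fun H _ => FreeFG H) (fun H _ => Cyclic H) ∧ ¬ ContainsBS G) ∧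
    (∀ (t u : MvPolynomial (Fin 2) ℤ ≃ₐ[ℤ] MvPolynomial (Fin 2) ℤ) (a b : ℤ),
      (∀ k : ℕ, 0 < k → u ^ k ≠ 1) → a ≠ 0 → b ≠ 0 → t * u ^ a * t⁻¹ = u ^ b → b = a ∨ b = -a) ∧
    (CombinationTheorem → FiniteIndexTheorem →
      ∀ (G : Type) [Group G] (ρ : G →* (MvPolynomial (Fin 2) ℤ ≃ₐ[ℤ] MvPolynomial (Fin 2) ℤ)),
        Function.Injective ρ → Group.FG G → ¬ ContainsZ2 G → Hyperbolic G) := by
  have h1 : ∀ (G : Type) [Group G]
      (ρ : G →* (MvPolynomial (Fin 2) ℤ ≃ₐ[ℤ] MvPolynomial (Fin 2) ℤ)),
      Function.Injective ρ → TorsionFree G → Group.FG G → ¬ ContainsZ2 G →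
      OnTree G (fun H _ => FreeFG H) (fun H _ => Cyclic H) ∧ ¬ ContainsBS G := by
    intro G _ ρ hρ hnt hfg hz
    refine ⟨Pool.Agent.U293.FX.STRA G ρ hρ hnt hfg hz, ?_⟩
    rintro ⟨p, q, f, hp, hq, hf⟩
    exact Pool.Agent.U293.FX.NoBSA G ρ hρ hz p q hp hq f hf
  refine ⟨h1, fun t u a b hu ha hb h => Pool.Agent.U293.FX.NBS.rel hu ha hb h,
    fun hC hI G _ ρ hρ hfg hz => ?_⟩
  obtain ⟨N, h3, h4⟩ := Pool.Agent.U293.FX.VIRA G ρ hρ
  have : N.FiniteIndex := ⟨h3⟩
  have hN : Group.FG N := Subgroup.fg_of_index_ne_zero N
  have hzN : ¬ ContainsZ2 N := fun h =>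
    hz (U722.FF.HasZ2_le N.subtype N.subtype_injective h)
  obtain ⟨h5, h6⟩ := h1 N (ρ.comp N.subtype) (hρ.comp N.subtype_injective) h4 hN hzN
  exact hI G N h3 (hC N h5 h6)

end Pool.Agent.Results.MP_140312_al.TorsionFreeAutomorphisms
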